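import Pool.Agent.Y795.DLC.Ito
import Pool.Agent.Results.MP_640be2_al.UnboundedDerivedLength

/-!
# The derived lengths of products of two nilpotent groups of given classes
-/

set_option autoImplicit false

namespace Pool.Agent.Results.MP_640be2_al.AllDerivedLengths

open Pool.Agent.Y795.DLC

/-- `N` is the derived length of some finite group `G = AB` with `A` and `B` nilpotent subgroups of
class exactly `α` and `β`, such that `G` has the property `P`. -/
def Occurs (P : (G : Type) → [Group G] → Prop) (α β N : ℕ) : Prop :=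
  ∃ (G : Type) (_ : Group G) (_ : Finite G) (A B : Subgroup G) (_ : Group.IsNilpotent A)
    (_ : Group.IsNilpotent B), P G ∧ (∀ g : G, ∃ a ∈ A, ∃ b ∈ B, g = a * b) ∧
      Group.nilpotencyClass A = α ∧ Group.nilpotencyClass B = β ∧
      derivedSeries G N = ⊥ ∧ ∀ n < N, derivedSeries G n ≠ ⊥

/-- no condition -/
def AnyGroup : (G : Type) → [Group G] → Prop := fun _ _ => True

/-- 2-groups -/
def TwoGroup : (G : Type) → [Group G] → Prop := fun G _ => IsPGroup 2 G

theorem Occurs.any {α β N : ℕ} (h : Occurs TwoGroup α β N) : Occurs AnyGroup α β N := by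
  obtain ⟨G, i1, i2, A, B, i3, i4, -, h⟩ := h
  exact ⟨G, i1, i2, A, B, i3, i4, trivial, h⟩

theorem Occurs.symm {P : (G : Type) → [Group G] → Prop} {α β N : ℕ} (h : Occurs P α β N) :
    Occurs P β α N := by
  obtain ⟨G, i1, i2, A, B, i3, i4, h0, h1, h2, h3, h4⟩ := h
  refine ⟨G, i1, i2, B, A, i4, i3, h0, fun g => ?_, h3, h2, h4⟩
  obtain ⟨a, ha, b, hb, h⟩ := h1 g⁻¹
  refine ⟨b⁻¹, B.inv_mem hb, a⁻¹, A.inv_mem ha, ?_⟩
  rw [← mul_inv_rev, ← h, inv_inv]

theorem twoGroup_prod {G H : Type} [Group G] [Group H] [Finite G] [Finite H] (hG : IsPGroup 2 G)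
    (hH : IsPGroup 2 H) : IsPGroup 2 (G × H) := by
  have : Fact (Nat.Prime 2) := ⟨Nat.prime_two⟩
  obtain ⟨m, hm⟩ := IsPGroup.iff_card.1 hG
  obtain ⟨n, hn⟩ := IsPGroup.iff_card.1 hH
  refine IsPGroup.of_card (n := m + n) ?_
  rw [Nat.card_prod, hm, hn, pow_add]

theorem dihedral_two (c : ℕ) : IsPGroup 2 (DihedralGroup (2 ^ c)) := by
  refine IsPGroup.of_card (n := c + 1) ?_
  rw [DihedralGroup.nat_card, pow_succ, mul_comm]

/-- a quotient with derived length exactly `N` -/
theorem exists_exact (N : ℕ) (hN : 1 ≤ N) : ∃ (G : Type) (_ : Group G) (_ : Finite G)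
    (A B : Subgroup G) (_ : Group.IsNilpotent A) (_ : Group.IsNilpotent B),
    IsPGroup 2 G ∧ (∀ g : G, ∃ a ∈ A, ∃ b ∈ B, g = a * b) ∧
      Group.nilpotencyClass A ≤ 1 ∧ Group.nilpotencyClass B ≤ 2 ∧
      derivedSeries G N = ⊥ ∧ derivedSeries G (N - 1) ≠ ⊥ := by
  have : Fact (Nat.Prime 2) := ⟨Nat.prime_two⟩
  obtain ⟨G, _, _, A, B, _, _, h2, hfac, hA, hB, hne⟩ :=
    UnboundedDerivedLength.construction N
  have hnor : (derivedSeries G N).Normal := derivedSeries_normal G N
  let π : G →* G ⧸ derivedSeries G N := QuotientGroup.mk' _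
  have hπ : Function.Surjective π := QuotientGroup.mk'_surjective _
  let fA : A →* A.map π := π.subgroupMap A
  have hfA : Function.Surjective fA := π.subgroupMap_surjective A
  let fB : B →* B.map π := π.subgroupMap B
  have hfB : Function.Surjective fB := π.subgroupMap_surjective B
  refine ⟨G ⧸ derivedSeries G N, inferInstance, inferInstance, A.map π, B.map π,
    Group.nilpotent_of_surjective fA hfA, Group.nilpotent_of_surjective fB hfB,
    h2.to_quotient _, ?_, ?_, ?_, ?_, ?_⟩
  · intro g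
    obtain ⟨g, rfl⟩ := hπ g
    obtain ⟨a, ha, b, hb, rfl⟩ := hfac g
    exact ⟨π a, ⟨a, ha, rfl⟩, π b, ⟨b, hb, rfl⟩, map_mul π a b⟩
  · rw [← hA]; exact Group.nilpotencyClass_le_of_surjective fA hfA
  · rw [← hB]; exact Group.nilpotencyClass_le_of_surjective fB hfB
  · rw [← map_derivedSeries_eq hπ, Subgroup.map_eq_bot_iff, QuotientGroup.ker_mk']
  · intro hbot
    rw [← map_derivedSeries_eq hπ, Subgroup.map_eq_bot_iff, QuotientGroup.ker_mk'] at hbot
    -- the series is constant from `N` on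
    have hconst : ∀ k, derivedSeries G N ≤ derivedSeries G (N + k) := by
      intro k
      induction k with
      | zero => exact le_rfl
      | succ k ih =>
        have h3 : derivedSeries G N = ⁅derivedSeries G (N - 1), derivedSeries G (N - 1)⁆ := by
          conv_lhs => rw [show N = (N - 1) + 1 by omega]
          rfl
        have h4 : derivedSeries G (N + (k + 1)) =
            ⁅derivedSeries G (N + k), derivedSeries G (N + k)⁆ := rfl
        rw [h4]
        calc derivedSeries G N = ⁅derivedSeries G (N - 1), derivedSeries G (N - 1)⁆ := h3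
          _ ≤ ⁅derivedSeries G (N + k), derivedSeries G (N + k)⁆ :=
            Subgroup.commutator_mono (hbot.trans ih) (hbot.trans ih)
    have : Group.IsNilpotent G := h2.isNilpotent
    obtain ⟨n, hn⟩ := (inferInstance : Group.IsSolvable G).solvable
    apply hne
    rw [eq_bot_iff, ← hn]
    exact (hconst n).trans (derivedSeries_antitone G (by omega))

theorem occurs_two (α β N : ℕ) (hα : 1 ≤ α) (hβ : 2 ≤ β) (hN : 2 ≤ N) :
    Occurs TwoGroup α β N := by
  obtain ⟨G, _, _, A, B, _, _, h2, hfac, hA, hB, hds, hds'⟩ := exists_exact N (by omega)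
  obtain ⟨i1, c1⟩ := dihedral_class α hα
  obtain ⟨i2, c2⟩ := dihedral_class β (by omega)
  have : NeZero (2 ^ α) := ⟨by positivity⟩
  have : NeZero (2 ^ β) := ⟨by positivity⟩
  let H := DihedralGroup (2 ^ α)
  let K := DihedralGroup (2 ^ β)
  let A' : Subgroup (G × (H × K)) := A.prod ((⊤ : Subgroup H).prod (⊥ : Subgroup K))
  let B' : Subgroup (G × (H × K)) := B.prod ((⊥ : Subgroup H).prod (⊤ : Subgroup K))
  obtain ⟨nA, cA⟩ := class_eq (S := A') (A := A) (H := H) α (by omega) c1
    (MonoidHom.mk' (fun x => ⟨(x.1.1, (x.2, 1)), ⟨x.1.2, ⟨trivial, rfl⟩⟩⟩) (by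
      intro x y
      apply Subtype.ext
      simp))
    (by
      rintro ⟨⟨g, h, k⟩, hg, hh, hk⟩
      refine ⟨(⟨g, hg⟩, h), ?_⟩
      apply Subtype.ext
      have hk' : k = 1 := hk
      show ((g, (h, (1 : K))) : G × (H × K)) = (g, (h, k))
      rw [hk'])
    (MonoidHom.mk' (fun x => x.1.2.1) (by intro x y; rfl))
    (by
      intro h
      exact ⟨⟨(1, (h, 1)), ⟨A.one_mem, ⟨trivial, rfl⟩⟩⟩, rfl⟩)
  obtain ⟨nB, cB⟩ := class_eq (S := B') (A := B) (H := K) β (by omega) c2
    (MonoidHom.mk' (fun x => ⟨(x.1.1, (1, x.2)), ⟨x.1.2, ⟨rfl, trivial⟩⟩⟩) (by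
      intro x y
      apply Subtype.ext
      simp))
    (by
      rintro ⟨⟨g, h, k⟩, hg, hh, hk⟩
      refine ⟨(⟨g, hg⟩, k), ?_⟩
      apply Subtype.ext
      have hh' : h = 1 := hh
      show ((g, ((1 : H), k)) : G × (H × K)) = (g, (h, k))
      rw [hh'])
    (MonoidHom.mk' (fun x => x.1.2.2) (by intro x y; rfl))
    (by
      intro k
      exact ⟨⟨(1, (1, k)), ⟨B.one_mem, ⟨rfl, trivial⟩⟩⟩, rfl⟩)
  refine ⟨G × (H × K), inferInstance, inferInstance, A', B', nA, nB, ?_, ?_, cA, cB, ?_, ?_⟩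
  · exact twoGroup_prod h2 (twoGroup_prod (dihedral_two α) (dihedral_two β))
  · rintro ⟨g, h, k⟩
    obtain ⟨a, ha, b, hb, rfl⟩ := hfac g
    refine ⟨(a, (h, 1)), ⟨ha, ⟨trivial, rfl⟩⟩, (b, (1, k)), ⟨hb, ⟨rfl, trivial⟩⟩, ?_⟩
    simp
  · apply ds_prod _ hds
    apply ds_prod
    · rw [eq_bot_iff, ← dihedral_metabelian (2 ^ α)]
      exact derivedSeries_antitone _ hN
    · rw [eq_bot_iff, ← dihedral_metabelian (2 ^ β)]
      exact derivedSeries_antitone _ hN
  · intro n hn hbot
    have h3 := ds_of_surjective (MonoidHom.fst G (H × K)) Prod.fst_surjective n hbot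
    apply hds'
    rw [eq_bot_iff, ← h3]
    exact derivedSeries_antitone _ (by omega)

theorem comm_of_class {G : Type} [Group G] (A : Subgroup G) [Group.IsNilpotent A]
    (h : Group.nilpotencyClass A ≤ 1) : ∀ a ∈ A, ∀ b ∈ A, a * b = b * a := by
  intro a ha b hb
  rw [Group.IsNilpotent.nilpotencyClass_le_one_iff] at h
  have := h.is_comm.comm (⟨a, ha⟩ : A) ⟨b, hb⟩
  exact congrArg Subtype.val this

theorem ofAdd_ne : (Multiplicative.ofAdd (1 : ZMod 2)) ≠ 1 := by decide

/-- the group of order two -/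
theorem occurs_one_one_one : Occurs TwoGroup 1 1 1 := by
  have : Fact (Nat.Prime 2) := ⟨Nat.prime_two⟩
  let G := Multiplicative (ZMod 2)
  have hcl : Group.nilpotencyClass (⊤ : Subgroup G) = 1 := by
    apply le_antisymm
    · exact CommGroup.nilpotencyClass_le_one
    · rw [Nat.one_le_iff_ne_zero]
      intro h0
      rw [Group.nilpotencyClass_zero_iff_subsingleton] at h0
      have := h0.elim (⟨Multiplicative.ofAdd (1 : ZMod 2), trivial⟩ : (⊤ : Subgroup G)) 1
      have h1 : Multiplicative.ofAdd (1 : ZMod 2) = 1 := congrArg Subtype.val this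
      exact ofAdd_ne h1
  refine ⟨G, inferInstance, inferInstance, ⊤, ⊤, inferInstance, inferInstance, ?_, ?_, hcl, hcl,
    ?_, ?_⟩
  · refine IsPGroup.of_card (n := 1) ?_
    simp [G]
  · intro g
    exact ⟨g, trivial, 1, trivial, by simp⟩
  · rw [derivedSeries_succ, derivedSeries_zero, eq_bot_iff, Subgroup.commutator_le]
    intro x _ y _
    rw [Subgroup.mem_bot, commutatorElement_def, mul_comm x y]
    group
  · intro n hn
    have : n = 0 := by omega
    subst this
    rw [derivedSeries_zero]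
    exact top_ne_bot

/-- the dihedral group of order eight -/
theorem occurs_one_one_two : Occurs TwoGroup 1 1 2 := by
  have : Fact (Nat.Prime 2) := ⟨Nat.prime_two⟩
  let G := DihedralGroup (2 ^ 2)
  have : NeZero (2 ^ 2) := ⟨by norm_num⟩
  let A : Subgroup G := R (2 ^ 2) 0
  let B : Subgroup G := Subgroup.zpowers (DihedralGroup.sr 0)
  have hAc : ∀ a b : A, a * b = b * a := by
    rintro ⟨_, i, rfl⟩ ⟨_, j, rfl⟩
    apply Subtype.ext
    show DihedralGroup.r _ * DihedralGroup.r _ = DihedralGroup.r _ * DihedralGroup.r _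
    rw [DihedralGroup.r_mul_r, DihedralGroup.r_mul_r, add_comm]
  have hA1 : IsMulCommutative A := ⟨⟨hAc⟩⟩
  have hB1 : IsMulCommutative B := inferInstance
  have nA : Group.IsNilpotent A :=
    ⟨1, Subgroup.upperCentralSeries_one_eq_top_iff.2 hA1⟩
  have nB : Group.IsNilpotent B :=
    ⟨1, Subgroup.upperCentralSeries_one_eq_top_iff.2 hB1⟩
  have cA : Group.nilpotencyClass A = 1 := by
    apply le_antisymm (Group.IsNilpotent.nilpotencyClass_le_one_iff.2 hA1)
    rw [Nat.one_le_iff_ne_zero]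
    intro h0
    rw [Group.nilpotencyClass_zero_iff_subsingleton] at h0
    have := h0.elim (⟨DihedralGroup.r 1, 1, by simp⟩ : A) 1
    have h1 : (DihedralGroup.r 1 : DihedralGroup (2 ^ 2)) = 1 := congrArg Subtype.val this
    exact absurd h1 (by decide)
  have cB : Group.nilpotencyClass B = 1 := by
    apply le_antisymm (Group.IsNilpotent.nilpotencyClass_le_one_iff.2 hB1)
    rw [Nat.one_le_iff_ne_zero]
    intro h0
    rw [Group.nilpotencyClass_zero_iff_subsingleton] at h0
    have := h0.elim (⟨DihedralGroup.sr 0, Subgroup.mem_zpowers _⟩ : B) 1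
    have h1 : (DihedralGroup.sr 0 : DihedralGroup (2 ^ 2)) = 1 := congrArg Subtype.val this
    exact absurd h1 (by decide)
  refine ⟨G, inferInstance, inferInstance, A, B, nA, nB, dihedral_two 2, ?_, cA, cB,
    dihedral_metabelian _, ?_⟩
  · rintro (i | i)
    · exact ⟨DihedralGroup.r i, ⟨i, by simp⟩, 1, B.one_mem, by rw [mul_one]⟩
    · refine ⟨DihedralGroup.r (-i), ⟨-i, by simp⟩, DihedralGroup.sr 0, Subgroup.mem_zpowers _, ?_⟩
      rw [DihedralGroup.r_mul_sr]
      simp
  · intro n hn hbot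
    have h1 : derivedSeries G 1 = ⊥ := by
      rw [eq_bot_iff, ← hbot]
      exact derivedSeries_antitone _ (by omega)
    have h2 := le_lcs (2 ^ 2) 1
    rw [show Subgroup.lowerCentralSeries (⊤ : Subgroup (DihedralGroup (2 ^ 2))) 1 =
      derivedSeries G 1 from rfl, h1, Subgroup.mem_bot] at h2
    exact absurd h2 (by decide)

/-- derived length at least two if one of the classes is at least two -/
theorem two_le {P : (G : Type) → [Group G] → Prop} {α β N : ℕ} (hα : 1 ≤ α) (hβ : 1 ≤ β)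
    (hne : ¬ (α = 1 ∧ β = 1)) (h : Occurs P α β N) : 2 ≤ N := by
  obtain ⟨G, _, _, A, B, _, _, -, -, h2, h3, h4, -⟩ := h
  by_contra hlt
  have h5 : derivedSeries G 1 = ⊥ := by
    rw [eq_bot_iff, ← h4]
    exact derivedSeries_antitone _ (by omega)
  have hc : IsMulCommutative G := Subgroup.lowerCentralSeries_one_eq_bot_iff.1 h5
  have hn : Group.IsNilpotent G := ⟨1, Subgroup.upperCentralSeries_one_eq_top_iff.2 hc⟩
  have hG := Group.IsNilpotent.nilpotencyClass_le_one_iff.2 hc
  have hA := (Subgroup.nilpotencyClass_le A).trans hG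
  have hB := (Subgroup.nilpotencyClass_le B).trans hG
  omega

/-- **The derived lengths of the products of two nilpotent groups of classes `α` and `β`.**
(1) If `α, β ≥ 1` and `(α, β) ≠ (1, 1)`, the derived lengths of the finite groups `G = AB` with `A`,
`B` nilpotent subgroups of classes exactly `α` and `β` are all the integers `N ≥ 2` (and only they);
each of them occurs for a finite 2-group. (2) If `α = β = 1` they are `1` and `2` (Itô's theorem
gives the bound), and both occur for 2-groups. (3) Hence for a pair `(α, β)` the derived lengths are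
bounded if and only if `α = 0` or `β = 0` or `α = β = 1`; in particular there is no function
`f(α, β)` as in the question. -/
theorem result :
    (∀ α β N : ℕ, 1 ≤ α → 1 ≤ β → ¬ (α = 1 ∧ β = 1) →
      ((Occurs AnyGroup α β N ↔ 2 ≤ N) ∧ (Occurs TwoGroup α β N ↔ 2 ≤ N))) ∧
    (∀ N : ℕ, (Occurs AnyGroup 1 1 N ↔ N = 1 ∨ N = 2) ∧
      (Occurs TwoGroup 1 1 N ↔ N = 1 ∨ N = 2)) ∧
    (∀ α β : ℕ, (∃ d : ℕ, ∀ (G : Type) [Group G] [Finite G] (A B : Subgroup G)
        [Group.IsNilpotent A] [Group.IsNilpotent B], (∀ g : G, ∃ a ∈ A, ∃ b ∈ B, g = a * b) →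
        Group.nilpotencyClass A = α → Group.nilpotencyClass B = β → derivedSeries G d = ⊥) ↔
      (α = 0 ∨ β = 0 ∨ (α = 1 ∧ β = 1))) ∧
    ¬ ∃ f : ℕ → ℕ → ℕ, ∀ (G : Type) [Group G] [Finite G] (A B : Subgroup G)
      [Group.IsNilpotent A] [Group.IsNilpotent B], (∀ g : G, ∃ a ∈ A, ∃ b ∈ B, g = a * b) →
        derivedSeries G (f (Group.nilpotencyClass A) (Group.nilpotencyClass B)) = ⊥ := by
  have part1 : ∀ α β N : ℕ, 1 ≤ α → 1 ≤ β → ¬ (α = 1 ∧ β = 1) → 2 ≤ N →
      Occurs TwoGroup α β N := by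
    intro α β N hα hβ hne hN
    by_cases hb : 2 ≤ β
    · exact occurs_two α β N hα hb hN
    · exact (occurs_two β α N hβ (by omega) hN).symm
  refine ⟨?_, ?_, ?_, UnboundedDerivedLength.result.2⟩
  · intro α β N hα hβ hne
    exact ⟨⟨two_le hα hβ hne, fun hN => (part1 α β N hα hβ hne hN).any⟩,
      ⟨two_le hα hβ hne, part1 α β N hα hβ hne⟩⟩
  · have key : ∀ (P : (G : Type) → [Group G] → Prop) (N : ℕ), Occurs P 1 1 N → N = 1 ∨ N = 2 := by
      rintro P N ⟨G, _, _, A, B, _, _, -, h1, h2, h3, h4, h5⟩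
      have h6 := ito A B (comm_of_class A h2.le) (comm_of_class B h3.le) h1
      have h7 : N ≤ 2 := by
        by_contra hlt
        exact h5 2 (by omega) h6
      have h8 : N ≠ 0 := by
        rintro rfl
        rw [derivedSeries_zero] at h4
        have hs : Subsingleton G := (Subgroup.subsingleton_iff).1 (subsingleton_of_bot_eq_top h4.symm)
        have h9 : Group.nilpotencyClass A = 0 :=
          Group.nilpotencyClass_zero_iff_subsingleton.2 inferInstance
        omega
      omega
    intro N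
    refine ⟨⟨key _ N, ?_⟩, ⟨key _ N, ?_⟩⟩
    · rintro (rfl | rfl)
      · exact occurs_one_one_one.any
      · exact occurs_one_one_two.any
    · rintro (rfl | rfl)
      · exact occurs_one_one_one
      · exact occurs_one_one_two
  · intro α β
    have hz : ∀ (G : Type) [Group G] (A B : Subgroup G) [Group.IsNilpotent A]
        [Group.IsNilpotent B], (∀ g : G, ∃ a ∈ A, ∃ b ∈ B, g = a * b) →
        Group.nilpotencyClass A = 0 → derivedSeries G (Group.nilpotencyClass B) = ⊥ := by
      intro G _ A B _ _ h1 h2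
      have h3 : Subsingleton A := Group.nilpotencyClass_zero_iff_subsingleton.1 h2
      have h4 : Function.Surjective B.subtype := by
        intro g
        obtain ⟨a, ha, b, hb, rfl⟩ := h1 g
        have h5 : a = 1 := congrArg Subtype.val (h3.elim (⟨a, ha⟩ : A) 1)
        exact ⟨⟨b, hb⟩, by rw [h5, one_mul]; rfl⟩
      apply ds_of_surjective B.subtype h4
      rw [eq_bot_iff, ← Subgroup.lowerCentralSeries_nilpotencyClass (G := B)]
      exact Subgroup.derived_le_lower_central _
    constructor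
    · rintro ⟨d, hd⟩
      by_contra hcon
      push Not at hcon
      obtain ⟨c1, c2, c3⟩ := hcon
      obtain ⟨G, _, _, A, B, _, _, -, h1, h2, h3, -, h5⟩ :=
        part1 α β (d + 2) (by omega) (by omega) (fun h => c3 h.1 h.2) (by omega)
      exact h5 d (by omega) (hd G A B h1 h2 h3)
    · rintro (rfl | rfl | ⟨rfl, rfl⟩)
      · exact ⟨β, fun G _ _ A B _ _ h1 h2 h3 => h3 ▸ hz G A B h1 h2⟩
      · refine ⟨α, fun G _ _ A B _ _ h1 h2 h3 => h2 ▸ hz G B A (fun g => ?_) h3⟩
        obtain ⟨a, ha, b, hb, h⟩ := h1 g⁻¹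
        refine ⟨b⁻¹, B.inv_mem hb, a⁻¹, A.inv_mem ha, ?_⟩
        rw [← mul_inv_rev, ← h, inv_inv]
      · exact ⟨2, fun G _ _ A B _ _ h1 h2 h3 =>
          ito A B (comm_of_class A h2.le) (comm_of_class B h3.le) h1⟩

end Pool.Agent.Results.MP_640be2_al.AllDerivedLengths
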